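import Pool.Agent.X295.TorC

/-!
# MP_c95b3b_ag: families of subvarieties of the torus over the complex numbers which degenerate along
hypersurfaces over number fields, and parameters in number fields

We consider families `X_t` (`member`) of subvarieties of the torus `G_m^n` given by Laurent polynomials
`∑_β c_jβ(t) x^β` with arbitrary finite supports `A_j ⊂ ℤ^n`, whose coefficients `c_jβ ≠ 0` are arbitrary
polynomials with complex coefficients in any number `q` of parameters `t = (t_1, …, t_q)`. Let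
`h_1, …, h_M` be irreducible polynomials in `t` over `ℂ` whose coefficients are algebraic numbers, let
`ord_{h_l} (c_jβ)` be the order of `c_jβ` along the hypersurface `h_l = 0` of the space of parameters, and
let `Trop_l` be the tropicalization of the family along `h_l = 0`: the set of the points `w ∈ ℚ^n` such
that for all `j` the minimum of `ord_{h_l} (c_jβ) + β · w`, `β ∈ A_j`, is attained twice.

**Theorem.** Suppose that no linear subspace of `ℚ^n` of dimension less than `r` meets all the `M`
tropicalizations `Trop_1, …, Trop_M`. Let `ω_0 ≠ 0, ω_1, …, ω_d` be algebraic numbers, for example an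
integral basis of a number field `E`. Then for each `ε > 0`, for all but `O(H^(q (d + 1) - 1 + ε))` of
the integral `u = (u_{j b})` with `|u_{j b}| ≤ H` the member `X_t` with the parameters
`t_j = ∑_b ω_b u_{j b}` (so for almost all `t` in `O_E^q`) has no atypical intersections: every
irreducible subset of the intersection of `X_t` with a coset `η T` of an algebraic subgroup `T`, such
that the coordinates of `η` are units of the integral closure of the ring generated by `Γ`, has dimension
at most `dim T - r`. Here `Γ` is any finite set of complex numbers; torsion cosets are included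
(`Γ = ∅`), and also all cosets by the points of the division group of any finitely generated subgroup of
`(ℂ^×)^n`, if `Γ` contains the coordinates of generators and their inverses.

**New.** The starting files have one parameter, degenerate members at points, `S`-unit coefficients or
translates. Near work: Maurin, Bombieri-Masser-Zannier, Habegger (fixed subvarieties).
-/

set_option autoImplicit false

namespace Pool.Agent.Results.MP_c95b3b_ag.NumberFieldFamilies

open MvPolynomial

open Pool.Agent.Results.MP_b7926e_nt.NoAtypical (coset idealOf dim)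

variable {n m q : ℕ}

/-- The member `X_t` of the family: the points of the torus at which all the Laurent polynomials
`∑_β c_jβ(t) x^β` vanish. -/
def member (A : Fin m → Finset (Fin n → ℤ)) (c : Fin m → (Fin n → ℤ) → MvPolynomial (Fin q) ℂ)
    (t : Fin q → ℂ) : Set (Fin n → ℂ) :=
  {x | (∀ i, x i ≠ 0) ∧ ∀ j, ∑ β ∈ A j, eval t (c j β) * ∏ i, x i ^ β i = 0}

/-- The order of the coefficient `c_jβ` along the hypersurface `h = 0`. -/
noncomputable def order (c : Fin m → (Fin n → ℤ) → MvPolynomial (Fin q) ℂ)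
    (h : MvPolynomial (Fin q) ℂ) (j : Fin m) (β : Fin n → ℤ) : ℤ :=
  (multiplicity h (c j β) : ℤ)

/-- The tropicalization of a system with the supports `A_j` and coefficients of the orders `e_jβ`: the
points `w` of `ℚ^n` such that for all `j` the minimum of `e_jβ + β · w` is attained at two different
exponents `a, b ∈ A_j`. -/
def Trop (A : Fin m → Finset (Fin n → ℤ)) (e : Fin m → (Fin n → ℤ) → ℤ) : Set (Fin n → ℚ) :=
  {w | ∀ j, ∃ a ∈ A j, ∃ b ∈ A j, a ≠ b ∧
    (e j a : ℚ) + ∑ i, (a i : ℚ) * w i = (e j b : ℚ) + ∑ i, (b i : ℚ) * w i ∧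
    ∀ β ∈ A j, (e j a : ℚ) + ∑ i, (a i : ℚ) * w i ≤ (e j β : ℚ) + ∑ i, (β i : ℚ) * w i}

/-- `z` is a unit of the integral closure in `ℂ` of the ring generated by `Γ`. -/
def IsUnitOver (Γ : Set ℂ) (z : ℂ) : Prop :=
  z ≠ 0 ∧ IsIntegral (Algebra.adjoin ℤ Γ) z ∧ IsIntegral (Algebra.adjoin ℤ Γ) z⁻¹

/-- `X` has no atypical intersection with the cosets of algebraic subgroups by points whose
coordinates are units over `Γ`: every irreducible subset `B` of `X ∩ η H` has dimension at most
`dim H - r`. Here `η H = {y | y ^ a = η ^ a for all a in Λ}` and `dim H = n - rank Λ`. -/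
def NoAtypical (r : ℕ) (Γ : Set ℂ) (X : Set (Fin n → ℂ)) : Prop :=
  ∀ (Λ : Submodule ℤ (Fin n → ℤ)) (η : Fin n → ℂ), (∀ i, IsUnitOver Γ (η i)) →
    ∀ B : Set (Fin n → ℂ), B ⊆ X → B ⊆ coset Λ η → (idealOf B).IsPrime →
      dim B + (r : Cardinal) + (Module.finrank ℤ Λ : Cardinal) ≤ (n : Cardinal)

/-- The coefficients after the substitution are algebraic. -/
theorem coeff_lin {d : ℕ} (ω : Fin (d + 1) → ℂ) (hω : ∀ b, IsAlgebraic ℚ (ω b))
    (h : MvPolynomial (Fin q) ℂ) (halg : ∀ w, IsAlgebraic ℚ (h.coeff w)) (w) :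
    IsAlgebraic ℚ ((Pool.Agent.X295.lin q ω h).coeff w) := by
  classical
  let S : Subalgebra ℚ ℂ := Subalgebra.algebraicClosure ℚ ℂ
  have h1 : Pool.Agent.X295.lin q ω h ∈
      (MvPolynomial.mapAlgHom (σ := Fin (q * (d + 1))) S.val).range := by
    rw [Pool.Agent.X295.lin, aeval_def, eval₂_eq]
    refine sum_mem fun v _ => mul_mem ?_ (prod_mem fun j _ => pow_mem (sum_mem fun b _ =>
      mul_mem ?_ ?_) _)
    · exact ⟨C ⟨h.coeff v, halg v⟩, by
        show MvPolynomial.map _ (C _) = _
        rw [MvPolynomial.map_C]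
        rfl⟩
    · exact ⟨C ⟨ω b, hω b⟩, by
        show MvPolynomial.map _ (C _) = _
        rw [MvPolynomial.map_C]
        rfl⟩
    · exact ⟨X _, by
        show MvPolynomial.map _ (X _) = _
        rw [MvPolynomial.map_X]⟩
  obtain ⟨P, hP⟩ := h1
  rw [← hP]
  show IsAlgebraic ℚ (coeff w (MvPolynomial.map _ P))
  rw [coeff_map]
  exact (P.coeff w).2

/-- Families of subvarieties of the torus with `q` parameters whose tropicalizations along some
hypersurfaces over the algebraic numbers do not all meet one linear space of dimension less than `r`: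
all but `O(H^(q (d + 1) - 1 + ε))` of the members with parameters in a box of size `H` of a lattice of
rank `q (d + 1)` of algebraic numbers have no atypical intersection. -/
theorem result (r M d : ℕ) (ω : Fin (d + 1) → ℂ) (hω0 : ω 0 ≠ 0) (hω : ∀ b, IsAlgebraic ℚ (ω b))
    (A : Fin m → Finset (Fin n → ℤ))
    (hA : ∀ j, (A j).Nonempty) (c : Fin m → (Fin n → ℤ) → MvPolynomial (Fin q) ℂ)
    (hc : ∀ j, ∀ β ∈ A j, c j β ≠ 0) (h : Fin M → MvPolynomial (Fin q) ℂ)
    (hh : ∀ l, Irreducible (h l)) (halg : ∀ l w, IsAlgebraic ℚ ((h l).coeff w))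
    (hgen : ∀ L : Submodule ℚ (Fin n → ℚ), Module.finrank ℚ L < r →
      ∃ l, ∀ w ∈ L, w ∉ Trop A (order c (h l)))
    (Γ : Set ℂ) (hΓ : Γ.Finite) (ε : ℝ) (hε : 0 < ε) :
    ∃ C : ℝ, ∀ H : ℕ, 1 ≤ H →
      ({u : Fin q → Fin (d + 1) → ℤ | (∀ j b, |u j b| ≤ H) ∧
        ¬ NoAtypical r Γ (member A c fun j => ∑ b, ω b * (u j b : ℂ))}.ncard : ℝ) ≤
        C * (H : ℝ) ^ ((q : ℝ) * (d + 1) - 1 + ε) := by
  classical
  have hunit : ∀ V : ValuationSubring ℂ, (∀ γ ∈ Γ, γ ∈ V) → ∀ z, IsUnitOver Γ z →
      V.valuation z = 1 := by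
    intro V hV z ⟨hz0, h1, h2⟩
    have h3 : ∀ w : ℂ, IsIntegral (Algebra.adjoin ℤ Γ) w → V.valuation w ≤ 1 := by
      intro w hw
      have h4 : algebraMap ℂ ℂ '' Γ = Γ := by simp
      refine Pool.Agent.Y152.BD.v_le_of_int (k := ℂ) Γ V (fun x hx => hV _ hx) ?_
      rw [h4]
      exact hw
    refine le_antisymm (h3 z h1) ?_
    have h5 := h3 _ h2
    rw [map_inv₀] at h5
    have h6 : V.valuation z ≠ 0 := (Valuation.ne_zero_iff _).2 hz0
    exact (inv_le_one₀ (zero_lt_iff.2 h6)).1 h5
  have hfac : ∀ (l : Fin M) (x : Σ j : Fin m, {a // a ∈ A j}), ∃ g,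
      c x.1 x.2 = h l ^ multiplicity (h l) (c x.1 x.2) * g ∧ ¬ h l ∣ g := by
    intro l x
    exact (FiniteMultiplicity.of_not_isUnit (hh l).not_isUnit
      (hc x.1 x.2 x.2.2)).exists_eq_pow_mul_and_not_dvd
  choose g hg1 hg2 using hfac
  obtain ⟨C, hC⟩ := Pool.Agent.X295.valuesC (q := q * (d + 1))
    (fun l => Pool.Agent.X295.lin q ω (h l))
    (fun l => Pool.Agent.X295.irreducible_lin ω hω0 (hh l))
    (fun l w => coeff_lin ω hω (h l) (halg l) w)
    (fun x : Σ j : Fin m, {a // a ∈ A j} => Pool.Agent.X295.lin q ω (c x.1 x.2))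
    (fun l x => multiplicity (h l) (c x.1 x.2))
    (fun l x => ⟨Pool.Agent.X295.lin q ω (g l x), by rw [← map_pow, ← map_mul, ← hg1 l x],
      fun hd => hg2 l x ((Pool.Agent.X295.linF_dvd ω hω0).1 hd)⟩)
    Γ hΓ hε {u | ¬ NoAtypical r Γ (member A c fun j => ∑ b, ω b * (u (finProdFinEquiv (j, b)) : ℂ))}
    (by
      intro u h0 V hV1 hV2 hV3 hu
      apply hu
      intro Λ η hη B hBX hBT hB
      simp only [Pool.Agent.X295.eval_linC] at h0 hV1 hV3
      rcases Nat.eq_zero_or_pos M with hM | hM
      · subst hM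
        have hr : r = 0 := by
          by_contra hr
          obtain ⟨l, -⟩ := hgen ⊥ (by rw [finrank_bot]; omega)
          exact l.elim0
        subst hr
        exact Pool.Agent.Y199.ZF.crit (m := 0) (N := 0) (r := 0) (fun j => j.elim0)
          (fun j => j.elim0) (fun j => j.elim0) (fun j => j.elim0) (fun l => l.elim0)
          (fun l => l.elim0) (fun l => l.elim0) (fun l => l.elim0) (fun l => l.elim0)
          (fun l => l.elim0) (fun L hL => absurd hL (Nat.not_lt_zero _)) Λ η (fun i => (hη i).1)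
          (fun l => l.elim0) B (fun x hx => ⟨(hBX hx).1, fun j => j.elim0⟩) hBT hB
      refine Pool.Agent.Y199.ZF.crit A hA
        (fun j β => eval (fun j => ∑ b, ω b * (u (finProdFinEquiv (j, b)) : ℂ)) (c j β)) ?_ V
        (fun l => eval (fun j => ∑ b, ω b * (u (finProdFinEquiv (j, b)) : ℂ)) (h l)) h0 hV1
        (fun l => order c (h l))
        (fun l j β hβ => ?_) hgen Λ η (fun i => (hη i).1)
        (fun l i => hunit (V l) (hV2 l) _ (hη i)) B hBX hBT hB
      · intro j β hβ h1
        have h2 := hV3 ⟨0, hM⟩ ⟨j, β, hβ⟩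
        rw [h1, map_zero] at h2
        exact pow_ne_zero _ ((Valuation.ne_zero_iff _).2 (h0 _)) h2.symm
      · rw [order, zpow_natCast]
        exact hV3 l ⟨j, β, hβ⟩)
  refine ⟨C, fun H hH => ?_⟩
  have h1 : {u : Fin q → Fin (d + 1) → ℤ | (∀ j b, |u j b| ≤ H) ∧
        ¬ NoAtypical r Γ (member A c fun j => ∑ b, ω b * (u j b : ℂ))} =
      {u : Fin q → Fin (d + 1) → ℤ | ¬ NoAtypical r Γ (member A c fun j => ∑ b, ω b * (u j b : ℂ))} ∩
        {u | ∀ j b, |u j b| ≤ (H : ℤ)} := by
    ext u
    exact and_comm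
  rw [h1, Pool.Agent.X295.count_linC ω (fun t => ¬ NoAtypical r Γ (member A c t)) H]
  refine (hC H hH).trans (le_of_eq ?_)
  push_cast
  rfl

end Pool.Agent.Results.MP_c95b3b_ag.NumberFieldFamilies
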