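import Pool.Agent.Results.MP_c95b3b_ag.NumberFieldFamilies
import Pool.Agent.X174.WinQ

/-!
# MP_c95b3b_ag: families of subvarieties of the torus with parameters in number fields: ALL parameters in cubes around thin
sequences of points

We consider families `X_t` (`member`) of subvarieties of the torus `G_m^n` given by Laurent polynomials
`∑_β c_jβ(t) x^β` with arbitrary finite supports `A_j ⊂ ℤ^n`, whose coefficients `c_jβ ≠ 0` are arbitrary
polynomials with complex coefficients in `q ≥ 1` parameters `t = (t_1, …, t_q)`. Let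
`h_1, …, h_M` be irreducible polynomials in `t` over `ℂ` whose coefficients are algebraic numbers, and let
`Trop_l` be the tropicalization of the family along `h_l = 0`.

**Theorem.** Suppose that no linear subspace of `ℚ^n` of dimension less than `r` meets all the `M` tropicalizations
`Trop_1, …, Trop_M`. Let `v ≥ 1` be a sequence of exponent of convergence at most `τ` (for `v_i = (i + 1) ^ a` this is
`1 / a`, for `v_i = b ^ i` it is `0`) and `ρ < 1`, `d ≥ 0`, and let `S` be a countable set of complex numbers. There is ONE set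
`E` of vectors `y = (y_jb)` of `q (d + 1)` real numbers, of Hausdorff dimension at most `(q (d + 1) - 1 + τ) / (1 - ρ)`, such
that for each `y` outside `E`, all algebraic numbers `ω_0 ≠ 0, ω_1, …, ω_d` and all finite sets `Γ ⊂ S`, for all but finitely
many `i`: for ALL integral `u = (u_jb)` with `|u_jb - y_jb v_i| ≤ v_i ^ ρ` the member `X_t` with the parameters
`t_j = ∑_b ω_b u_jb` has no atypical intersections: every irreducible subset of the intersection of `X_t` with a coset `η T`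
of an algebraic subgroup `T`, such that the coordinates of `η` are units of the integral closure of the ring generated by
`Γ`, has dimension at most `dim T - r`.

For `S` the field of algebraic numbers every point `η` with algebraic coordinates is allowed for a suitable `Γ`, and one set
`E` serves for all number fields of degree `d + 1`. The count of the exceptional `u` in a box is from the result
`NumberFieldFamilies` of helper295.
-/

set_option autoImplicit false

open MvPolynomial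

namespace Pool.Agent.Results.MP_c95b3b_ag.ParametersInCubes

open NumberFieldFamilies (member order Trop IsUnitOver NoAtypical)

/-- the exponent of convergence of the sequence `v` is at most `τ` -/
def ExpLe (v : ℕ → ℝ) (τ : ℝ) : Prop := ∀ t : ℝ, τ < t → Summable (fun n : ℕ => (v n) ^ (-t))

/-- **Theorem.** Families of subvarieties of the torus with `q ≥ 1` parameters whose tropicalizations along some
hypersurfaces over the algebraic numbers do not all meet one linear space of dimension less than `r`, a countable set `S` of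
complex numbers, a sequence `v ≥ 1` of exponent of convergence at most `τ ≥ 0` and `ρ < 1`: there is a set `E` of real vectors
`(y_jb)` of dimension at most `(q (d + 1) - 1 + τ) / (1 - ρ)` such that for `y` outside `E`, all algebraic
`ω_0 ≠ 0, ω_1, …, ω_d` and all finite `Γ ⊂ S`, for all but finitely many `i`, for ALL integral `u` with
`|u_jb - y_jb v_i| ≤ v_i ^ ρ` the member with the parameters `t_j = ∑_b ω_b u_jb` has no atypical intersection. The sequences
`v_i = (i + 1) ^ a` and `v_i = b ^ i` have exponent of convergence at most `1 / a` and `0`. -/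
theorem result :
    (∀ (n m q r M d : ℕ), 1 ≤ q → ∀ (A : Fin m → Finset (Fin n → ℤ)), (∀ j, (A j).Nonempty) →
      ∀ (c : Fin m → (Fin n → ℤ) → MvPolynomial (Fin q) ℂ), (∀ j, ∀ β ∈ A j, c j β ≠ 0) →
      ∀ (h : Fin M → MvPolynomial (Fin q) ℂ), (∀ l, Irreducible (h l)) → (∀ l w, IsAlgebraic ℚ ((h l).coeff w)) →
      (∀ L : Submodule ℚ (Fin n → ℚ), Module.finrank ℚ L < r → ∃ l, ∀ w ∈ L, w ∉ Trop A (order c (h l))) →
      ∀ S : Set ℂ, S.Countable → ∀ (v : ℕ → ℝ) (τ ρ : ℝ), (∀ i, 1 ≤ v i) → 0 ≤ τ → ExpLe v τ → ρ < 1 →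
      ∃ E : Set (Fin q × Fin (d + 1) → ℝ), dimH E ≤ ENNReal.ofReal (((q : ℝ) * (d + 1) - 1 + τ) / (1 - ρ)) ∧
        ∀ y : Fin q × Fin (d + 1) → ℝ, y ∉ E →
          ∀ ω : Fin (d + 1) → ℂ, ω 0 ≠ 0 → (∀ b, IsAlgebraic ℚ (ω b)) → ∀ Γ : Set ℂ, Γ.Finite → Γ ⊆ S →
            ∃ i₀ : ℕ, ∀ i : ℕ, i₀ ≤ i → ∀ u : Fin q → Fin (d + 1) → ℤ,
              (∀ j b, |(u j b : ℝ) - y (j, b) * v i| ≤ (v i) ^ ρ) →
                NoAtypical r Γ (member A c fun j => ∑ b, ω b * (u j b : ℂ))) ∧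
    (∀ a : ℝ, 0 < a → ExpLe (fun n : ℕ => ((n : ℝ) + 1) ^ a) (1 / a)) ∧
    (∀ b : ℝ, 1 < b → ExpLe (fun n : ℕ => b ^ n) 0) := by
  refine ⟨fun n m q r M d hq A hA c hc h hh halg hgen S hS v τ ρ hv hτ hE hρ => ?_,
    fun κ hκ => Pool.Agent.Y854.GM.expLe_pow κ hκ, fun b hb => Pool.Agent.Y854.GM.expLe_geom b hb⟩
  classical
  have hcS : Countable S := hS.to_subtype
  have hcA : Countable {z : ℂ // IsAlgebraic ℚ z} := (Algebraic.countable ℚ ℂ).to_subtype
  have hq1 : (1 : ℝ) ≤ q := by exact_mod_cast hq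
  have hs : (0 : ℝ) ≤ (q : ℝ) * (d + 1) - 1 := by
    have : (0 : ℝ) ≤ d := Nat.cast_nonneg d
    nlinarith
  have key : ∀ z : (Fin (d + 1) → {z : ℂ // IsAlgebraic ℚ z}) × Finset S, ∃ E : Set (Fin q × Fin (d + 1) → ℝ),
      dimH E ≤ ENNReal.ofReal (((q : ℝ) * (d + 1) - 1 + τ) / (1 - ρ)) ∧
      ((z.1 0 : ℂ) ≠ 0 → ∀ y : Fin q × Fin (d + 1) → ℝ, y ∉ E → ∀ R : ℕ, 1 ≤ R → ∃ i₀ : ℕ, ∀ i : ℕ, i₀ ≤ i →
        ∀ u : Fin q → Fin (d + 1) → ℤ, (∀ p : Fin q × Fin (d + 1), |(u p.1 p.2 : ℝ) - y p * v i| ≤ (v i) ^ ρ) →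
          u ∉ {u : Fin q → Fin (d + 1) → ℤ | (∀ j b, |u j b| ≤ (⌊(R : ℝ) * v i⌋₊ : ℕ)) ∧
            ¬ NoAtypical r ((fun s : S => (s : ℂ)) '' (z.2 : Set S))
              (member A c fun j => ∑ b, (z.1 b : ℂ) * (u j b : ℂ))}) := by
    rintro ⟨ω, Γ⟩
    dsimp only
    by_cases hω0 : (ω 0 : ℂ) ≠ 0
    swap
    · exact ⟨∅, by simp, fun h => absurd h hω0⟩
    have hΓ : ((fun s : S => (s : ℂ)) '' (Γ : Set S)).Finite := Γ.finite_toSet.image _
    obtain ⟨E, h1, h2⟩ := Pool.Agent.X174.winFamE (κ := Fin q × Fin (d + 1)) (Q := Fin q → Fin (d + 1) → ℤ)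
      (fun u p => (u p.1 p.2 : ℝ))
      (fun T => {u : Fin q → Fin (d + 1) → ℤ | (∀ j b, |u j b| ≤ (⌊T⌋₊ : ℕ)) ∧
            ¬ NoAtypical r ((fun s : S => (s : ℂ)) '' (Γ : Set S))
              (member A c fun j => ∑ b, (ω b : ℂ) * (u j b : ℂ))}) hs (by
        intro ε hε
        obtain ⟨C, hC⟩ := NumberFieldFamilies.result r M d (fun b => (ω b : ℂ)) hω0 (fun b => (ω b).2) A hA c hc h hh halg
          hgen _ hΓ ε hε
        refine ⟨max C 0, fun T hT => ⟨?_, ?_⟩⟩
        · refine (Set.Finite.subset (Set.finite_Icc (fun _ _ => -((⌊T⌋₊ : ℕ) : ℤ)) (fun _ _ => ((⌊T⌋₊ : ℕ) : ℤ))) ?_)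
          rintro u ⟨hu, -⟩
          exact ⟨fun j b => (abs_le.1 (hu j b)).1, fun j b => (abs_le.1 (hu j b)).2⟩
        · have hT0 : (0 : ℝ) < T := by linarith
          have h3 := hC ⌊T⌋₊ (Nat.one_le_floor_iff T |>.2 hT)
          have h4 : ((⌊T⌋₊ : ℕ) : ℝ) ^ ((q : ℝ) * (d + 1) - 1 + ε) ≤ T ^ ((q : ℝ) * (d + 1) - 1 + ε) :=
            Real.rpow_le_rpow (Nat.cast_nonneg _) (Nat.floor_le hT0.le) (by linarith)
          calc _ ≤ C * ((⌊T⌋₊ : ℕ) : ℝ) ^ ((q : ℝ) * (d + 1) - 1 + ε) := h3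
            _ ≤ max C 0 * ((⌊T⌋₊ : ℕ) : ℝ) ^ ((q : ℝ) * (d + 1) - 1 + ε) :=
                mul_le_mul_of_nonneg_right (le_max_left _ _) (by positivity)
            _ ≤ max C 0 * T ^ ((q : ℝ) * (d + 1) - 1 + ε) := mul_le_mul_of_nonneg_left h4 (le_max_right _ _)) hv hτ hE hρ
    exact ⟨E, h1, fun _ => h2⟩
  choose Es h1 h2 using key
  refine ⟨⋃ z, Es z, ?_, fun y hy ω hω0 hω Γ hΓ hΓS => ?_⟩
  · rw [dimH_iUnion]
    exact iSup_le h1
  -- the finite set `Γ`
  obtain ⟨Γ', hΓ'⟩ : ∃ Γ' : Finset S, ((fun s : S => (s : ℂ)) '' (Γ' : Set S)) = Γ := by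
    have hf : (Subtype.val ⁻¹' Γ : Set S).Finite := hΓ.preimage Subtype.val_injective.injOn
    refine ⟨hf.toFinset, ?_⟩
    rw [Set.Finite.coe_toFinset]
    exact Subtype.image_preimage_val S Γ |>.trans (Set.inter_eq_right.2 hΓS)
  obtain ⟨R, hR⟩ := exists_nat_ge (∑ p, |y p| + 1)
  have hR1 : (1 : ℝ) ≤ R := by
    have : (0 : ℝ) ≤ ∑ p, |y p| := Finset.sum_nonneg fun _ _ => abs_nonneg _
    linarith
  obtain ⟨i₀, hi₀⟩ := h2 ⟨fun b => ⟨ω b, hω b⟩, Γ'⟩ hω0 y (fun hm => hy (Set.mem_iUnion.2 ⟨_, hm⟩)) R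
    (by exact_mod_cast hR1)
  refine ⟨i₀, fun i hi u hu => ?_⟩
  by_contra hne
  refine hi₀ i hi u (fun p => hu p.1 p.2) ⟨fun j b => ?_, ?_⟩
  · have hvi := hv i
    have h3 : |y (j, b)| ≤ ∑ p, |y p| :=
      Finset.single_le_sum (f := fun p => |y p|) (fun _ _ => abs_nonneg _) (Finset.mem_univ (j, b))
    have h4 : (v i) ^ ρ ≤ v i := by
      calc (v i) ^ ρ ≤ (v i) ^ (1 : ℝ) := Real.rpow_le_rpow_of_exponent_le hvi hρ.le
        _ = v i := Real.rpow_one _
    have h5 := hu j b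
    have h6 : |(u j b : ℝ)| ≤ |y (j, b) * v i| + (v i) ^ ρ := by
      have := abs_sub_abs_le_abs_sub (u j b : ℝ) (y (j, b) * v i)
      linarith
    rw [abs_mul, abs_of_pos (by linarith : 0 < v i)] at h6
    have h7 : |(u j b : ℝ)| ≤ R * v i := by nlinarith
    have h8 : ((u j b).natAbs : ℝ) ≤ R * v i := by
      rw [Nat.cast_natAbs, Int.cast_abs]
      exact h7
    have h9 := Nat.le_floor h8
    rw [Int.abs_eq_natAbs]
    exact_mod_cast h9
  · dsimp only
    rw [hΓ']
    exact hne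

end Pool.Agent.Results.MP_c95b3b_ag.ParametersInCubes
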