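import Pool.Agent.Results.MP_c95b3b_ag.SUnitSystems
import Pool.Agent.X174.WinFamC

/-!
# Zilber's conjecture for ALL sparse systems whose coefficients have their valuations in cubes around thin sequences of
points

Let `A_1, …, A_r ⊂ ℤ^n` be finite nonempty sets, `D = ∑ |A_j|`, and `V_b` the subvariety of the torus `(ℂ^×)^n` which is
defined by the Laurent polynomials `∑_{α ∈ A_j} b_jα x ^ α`. Let `t ∏_j |A_j| (|A_j| - 1) < N` and `w_1, …, w_N` ARBITRARY
absolute values of the field `ℂ`. For every sequence `v ≥ 1` of exponent of convergence at most `τ` (for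
`v_m = (m + 1) ^ a` this is `1 / a`, for `v_m = b ^ m` it is `0`) and every `0 ≤ ρ < 1` there is ONE set `E ⊂ ℝ^(N D)` of
Hausdorff dimension at most `(N D + r - 1 - t + τ) / (1 - ρ)` such that for each point `X` outside `E` and all `B`, `L`, for
all but finitely many `m`: for ALL systems with nonzero coefficients `b ∈ ℂ^D` such that all
`|log w_i(b_jα) - X_(i, jα) v_m| ≤ L v_m ^ ρ` the variety `V_b` has no atypical intersection with a coset `η H` such that all
`|log w_i(η_l)| ≤ B`. This contains all torsion cosets.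

For different primes `p_i`, nonzero complex numbers `a_jα` and ALL integral exponents `e` in the cubes around `X v_m` the
variety `V_b` with `b_jα = a_jα ∏_i p_i ^ e_i(j, α)` has moreover no point on an algebraic subgroup of dimension less than
`r`, so that the set `U(Y)` of the problem is empty for all components `Y` of `V_b`.

The bound is less than `N D` if `τ + N D ρ < t - r + 1`; in particular for `ρ = 0` one can take all integers `v_m = m + 1`
(`τ = 1`) if `t > r`. The number of exceptional systems is from the starting result `SUnitSystems`.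
-/

set_option autoImplicit false

namespace Pool.Agent.Results.MP_c95b3b_ag.SystemsInCubes

open SUnitSystems (Coeff Typical TypicalWithin U)

/-- the exponent of convergence of the sequence `v` is at most `τ` -/
def ExpLe (v : ℕ → ℝ) (τ : ℝ) : Prop := ∀ t : ℝ, τ < t → Summable (fun n : ℕ => (v n) ^ (-t))

theorem mono_within {n r N : ℕ} (w : Fin N → AbsoluteValue ℂ ℝ) {B B' : ℝ} (hB : B ≤ B') (A : Fin r → Finset (Fin n → ℤ))
    (b : Coeff A → ℂ) (h : TypicalWithin w B' A b) : TypicalWithin w B A b :=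
  fun M η h0 hη W hW1 hW2 hW3 => h M η h0 (fun i l => (hη i l).trans hB) W hW1 hW2 hW3

/-- boxes of integral matrices are finite -/
theorem finite_box {N : ℕ} {κ : Type} [Fintype κ] (H : ℕ) : {e : Fin N → κ → ℤ | ∀ i x, |e i x| ≤ (H : ℤ)}.Finite := by
  have h1 : {e : Fin N → κ → ℤ | ∀ i, e i ∈ {f : κ → ℤ | ∀ j, f j ∈ Set.Icc (-(H : ℤ)) H}}.Finite :=
    Set.Finite.pi' fun _ => Set.Finite.pi' fun _ => Set.finite_Icc _ _
  exact h1.subset fun e he i j => abs_le.1 (he i j)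

/-- from `card (2 H + 1) ^ t ≤ c (2 H + 1) ^ (M)` to a power of `T` -/
theorem count {m t c M : ℕ} (htM : t ≤ M) {T : ℝ} (hT : 1 ≤ T)
    (h : m * (2 * ⌊T⌋₊ + 1) ^ t ≤ c * (2 * ⌊T⌋₊ + 1) ^ M) :
    (m : ℝ) ≤ (c : ℝ) * 3 ^ ((M : ℝ) - t) * T ^ ((M : ℝ) - t) := by
  set H : ℕ := ⌊T⌋₊ with hH
  have hHT : (H : ℝ) ≤ T := Nat.floor_le (by linarith)
  have hs : (0 : ℝ) ≤ (M : ℝ) - t := by
    have : (t : ℝ) ≤ M := by exact_mod_cast htM
    linarith
  have h2 : (m : ℝ) * (2 * (H : ℝ) + 1) ^ t ≤ c * (2 * (H : ℝ) + 1) ^ M := by exact_mod_cast h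
  have hp1 : (0 : ℝ) < 2 * (H : ℝ) + 1 := by positivity
  have h3 : (2 * (H : ℝ) + 1) ^ M = (2 * (H : ℝ) + 1) ^ ((M : ℝ) - t) * (2 * (H : ℝ) + 1) ^ t := by
    rw [← Real.rpow_natCast (2 * (H : ℝ) + 1) t, ← Real.rpow_add hp1, ← Real.rpow_natCast]
    congr 1
    ring
  have h4 : (m : ℝ) ≤ c * (2 * (H : ℝ) + 1) ^ ((M : ℝ) - t) := by
    rw [h3, ← mul_assoc] at h2
    exact le_of_mul_le_mul_right h2 (by positivity)
  refine h4.trans ?_
  calc (c : ℝ) * (2 * (H : ℝ) + 1) ^ ((M : ℝ) - t)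
      ≤ c * (3 * T) ^ ((M : ℝ) - t) := by
        apply mul_le_mul_of_nonneg_left _ (Nat.cast_nonneg c)
        apply Real.rpow_le_rpow (by positivity) (by linarith) hs
    _ = c * 3 ^ ((M : ℝ) - t) * T ^ ((M : ℝ) - t) := by
        rw [Real.mul_rpow (by norm_num) (by linarith)]
        ring

/-- **Theorem.** Let `A_1, …, A_r`, `r ≥ 1`, be finite nonempty subsets of `ℤ^n`, `t ∏_j |A_j| (|A_j| - 1) < N`, `t ≤ N`, `v ≥ 1`
a sequence of exponent of convergence at most `τ ≥ 0` and `ρ < 1`.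

(1) Let `p_i`, `i < N`, be distinct primes and `a_jα` nonzero complex numbers. There is a set `E` of Hausdorff dimension at
most `(N ∑ |A_j| + r - 1 - t + τ) / (1 - ρ)` such that for each `X` outside `E`, for all but finitely many `m`, for ALL
integral `e` with `|e_i(j, α) - X_(i, jα) v_m| ≤ v_m ^ ρ` the variety `V_b`, `b_jα = a_jα ∏_i p_i ^ e_i(j, α)`, has no atypical
intersection with a torsion coset and no point on an algebraic subgroup of dimension less than `r`.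

(2) Let `w_i`, `i < N`, be absolute values of `ℂ` and `0 ≤ ρ`. There is a set `E` of Hausdorff dimension at most
`(N ∑ |A_j| + r - 1 - t + τ) / (1 - ρ)` such that for each `X` outside `E` and all `B`, `L`, for all but finitely many `m`,
for ALL `b` with nonzero coordinates and `|log w_i(b_jα) - X_(i, jα) v_m| ≤ L v_m ^ ρ` the variety `V_b` has no atypical
intersection with a coset `η H` with all `|log w_i(η_l)| ≤ B`.

The sequences `v_m = (m + 1) ^ a` and `v_m = b ^ m` have exponent of convergence at most `1 / a` and `0`. -/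
theorem result :
    (∀ {n r : ℕ} (A : Fin r → Finset (Fin n → ℤ)), 1 ≤ r → (∀ j, (A j).Nonempty) → ∀ N t : ℕ,
      (∏ j, (A j).card * ((A j).card - 1)) * t < N → t ≤ N →
      ∀ (v : ℕ → ℝ) (τ ρ : ℝ), (∀ m, 1 ≤ v m) → 0 ≤ τ → ExpLe v τ → ρ < 1 →
      (∀ p : Fin N → ℕ, (∀ i, (p i).Prime) → Function.Injective p → ∀ a : Coeff A → ℂ, (∀ x, a x ≠ 0) →
        ∃ E : Set (Fin N × Coeff A → ℝ),
          dimH E ≤ ENNReal.ofReal (((N : ℝ) * ∑ j, ((A j).card : ℝ) + r - 1 - t + τ) / (1 - ρ)) ∧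
          ∀ X : Fin N × Coeff A → ℝ, X ∉ E → ∃ m₀ : ℕ, ∀ m : ℕ, m₀ ≤ m →
            ∀ e : Fin N → Coeff A → ℤ, (∀ i x, |(e i x : ℝ) - X (i, x) * v m| ≤ (v m) ^ ρ) →
              Typical A (fun x => a x * ∏ i, (p i : ℂ) ^ e i x) ∧
                U A (fun x => a x * ∏ i, (p i : ℂ) ^ e i x) = ∅) ∧
      (0 ≤ ρ → ∀ w : Fin N → AbsoluteValue ℂ ℝ, ∃ E : Set (Fin N × Coeff A → ℝ),
        dimH E ≤ ENNReal.ofReal (((N : ℝ) * ∑ j, ((A j).card : ℝ) + r - 1 - t + τ) / (1 - ρ)) ∧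
        ∀ X : Fin N × Coeff A → ℝ, X ∉ E → ∀ B L : ℝ, ∃ m₀ : ℕ, ∀ m : ℕ, m₀ ≤ m →
          ∀ b : Coeff A → ℂ, (∀ x, b x ≠ 0) →
            (∀ i x, |Real.log (w i (b x)) - X (i, x) * v m| ≤ L * (v m) ^ ρ) → TypicalWithin w B A b)) ∧
    (∀ a : ℝ, 0 < a → ExpLe (fun n : ℕ => ((n : ℝ) + 1) ^ a) (1 / a)) ∧
    (∀ b : ℝ, 1 < b → ExpLe (fun n : ℕ => b ^ n) 0) := by
  classical
  refine ⟨?_, fun κ hκ => Pool.Agent.Y854.GM.expLe_pow κ hκ, fun b hb => Pool.Agent.Y854.GM.expLe_geom b hb⟩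
  intro n r A hr hA N t hN htN v τ ρ hv hτ hE hρ
  obtain ⟨hP, hQ⟩ := SUnitSystems.result A hA N t hN
  set M : ℕ := N * ∑ j, (A j).card + r - 1 with hM
  have hD : 1 ≤ ∑ j, (A j).card := by
    refine le_trans ?_ (Finset.single_le_sum (f := fun j => (A j).card) (fun _ _ => Nat.zero_le _)
      (Finset.mem_univ (⟨0, hr⟩ : Fin r)))
    exact (hA _).card_pos
  have hND : N ≤ N * ∑ j, (A j).card := Nat.le_mul_of_pos_right N hD
  have htM : t ≤ M := by omega
  have hMr : ((M : ℝ) - t) = (N : ℝ) * ∑ j, ((A j).card : ℝ) + r - 1 - t := by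
    rw [hM, Nat.cast_sub (by omega)]
    push_cast
    ring
  have hs : (0 : ℝ) ≤ (M : ℝ) - t := by
    have : (t : ℝ) ≤ M := by exact_mod_cast htM
    linarith
  have hvp : ∀ m, 0 < v m := fun m => lt_of_lt_of_le one_pos (hv m)
  refine ⟨fun p hp hpi a ha => ?_, fun hρ0 w => ?_⟩
  · -- part (1)
    obtain ⟨c, hc⟩ := hP p hp hpi a ha
    set Bad : (Fin N → Coeff A → ℤ) → Prop := fun e =>
      ¬ (Typical A (fun x => a x * ∏ i, (p i : ℂ) ^ e i x) ∧ U A (fun x => a x * ∏ i, (p i : ℂ) ^ e i x) = ∅) with hBad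
    obtain ⟨E, hE1, hE2⟩ := Pool.Agent.X174.winFam (κ := Fin N × Coeff A) (Q := Fin N → Coeff A → ℤ)
      (fun e q => (e q.1 q.2 : ℝ))
      (fun T => {e : Fin N → Coeff A → ℤ | (∀ i x, |e i x| ≤ ((⌊T⌋₊ : ℕ) : ℤ)) ∧ Bad e})
      (s := (M : ℝ) - t) (C := (c : ℝ) * 3 ^ ((M : ℝ) - t)) hs
      (fun T hT => by
        have hT1 : 1 ≤ ⌊T⌋₊ := Nat.le_floor (by exact_mod_cast hT)
        refine ⟨(finite_box ⌊T⌋₊).subset fun e he => he.1, ?_⟩
        rw [← Nat.card_coe_set_eq]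
        exact count htM hT (hc ⌊T⌋₊ hT1))
      hv hτ hE hρ
    rw [hMr] at hE1
    refine ⟨E, hE1, fun X hX => ?_⟩
    obtain ⟨R, hR, hRc⟩ := Pool.Agent.X174.le_of_cube X
    obtain ⟨m₀, hm₀⟩ := hE2 X hX R hR
    refine ⟨m₀, fun m hm e he => ?_⟩
    by_contra hcon
    have h3 := hRc (fun q => (e q.1 q.2 : ℝ)) (v m) ρ (hv m) hρ (fun q => he q.1 q.2)
    refine hm₀ m hm e (fun q => he q.1 q.2) ⟨fun i x => ?_, hcon⟩
    have h4 : (((e i x).natAbs : ℕ) : ℝ) ≤ (R : ℝ) * v m := by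
      rw [Nat.cast_natAbs, Int.cast_abs]
      exact h3 (i, x)
    rw [Int.abs_eq_natAbs]
    exact_mod_cast Nat.le_floor h4
  · -- part (2)
    have key : ∀ B : ℕ, ∃ E : Set (Fin N × Coeff A → ℝ),
        dimH E ≤ ENNReal.ofReal (((M : ℝ) - t + τ) / (1 - ρ)) ∧
        ∀ X : Fin N × Coeff A → ℝ, X ∉ E → ∀ L : ℝ, ∃ m₀ : ℕ, ∀ m : ℕ, m₀ ≤ m →
          ∀ b : Coeff A → ℂ, (∀ x, b x ≠ 0) →
            (∀ i x, |Real.log (w i (b x)) - X (i, x) * v m| ≤ L * (v m) ^ ρ) →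
              TypicalWithin w ((B : ℝ) + 1) A b := by
      intro B
      obtain ⟨c, hc⟩ := hQ w (fun _ => 1) (fun _ => one_ne_zero) ((B : ℝ) + 1)
      choose F hF1 hF2 using hc
      set Bad : (Fin N → Coeff A → ℤ) → Prop := fun e => ∃ b : Coeff A → ℂ, (∀ x, b x ≠ 0) ∧
        (∀ i x, |Real.log (w i (b x)) - 1 * e i x| ≤ (B : ℝ) + 1) ∧ ¬ TypicalWithin w ((B : ℝ) + 1) A b with hBad
      obtain ⟨E, hE1, hE2⟩ := Pool.Agent.X174.winFamC (κ := Fin N × Coeff A) (Q := Fin N → Coeff A → ℤ)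
        (fun e q => (e q.1 q.2 : ℝ))
        (fun T => {e : Fin N → Coeff A → ℤ | (∀ i x, |e i x| ≤ ((⌊T⌋₊ : ℕ) : ℤ)) ∧ Bad e})
        (s := (M : ℝ) - t) (C := (c : ℝ) * 3 ^ ((M : ℝ) - t)) hs
        (fun T hT => by
          have hT1 : 1 ≤ ⌊T⌋₊ := Nat.le_floor (by exact_mod_cast hT)
          have hsub : {e : Fin N → Coeff A → ℤ | (∀ i x, |e i x| ≤ ((⌊T⌋₊ : ℕ) : ℤ)) ∧ Bad e} ⊆
              (F ⌊T⌋₊ hT1 : Set (Fin N → Coeff A → ℤ)) := by
            rintro e ⟨he1, b, hb0, hb1, hb2⟩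
            by_contra hcon
            exact hb2 (hF2 ⌊T⌋₊ hT1 e he1 (fun h => hcon (Finset.mem_coe.2 h)) b hb0 hb1)
          refine ⟨(F ⌊T⌋₊ hT1).finite_toSet.subset hsub, ?_⟩
          have h1 := Set.ncard_le_ncard hsub (F ⌊T⌋₊ hT1).finite_toSet
          rw [Set.ncard_coe_finset] at h1
          have h2 := count htM hT (hF1 ⌊T⌋₊ hT1)
          exact le_trans (by exact_mod_cast h1) h2)
        hv hτ hE hρ
      refine ⟨E, hE1, fun X hX L => ?_⟩
      obtain ⟨R, hR, hRc⟩ := Pool.Agent.X174.le_of_cubeC X (L + 1)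
      obtain ⟨m₀, hm₀⟩ := hE2 X hX R hR (L + 1)
      refine ⟨m₀, fun m hm b hb0 hb => ?_⟩
      by_contra hcon
      set e : Fin N → Coeff A → ℤ := fun i x => ⌊Real.log (w i (b x))⌋ with he
      have hpow1 : 1 ≤ (v m) ^ ρ := Real.one_le_rpow (hv m) hρ0
      have hfl : ∀ i x, |Real.log (w i (b x)) - (e i x : ℝ)| ≤ 1 := by
        intro i x
        rw [abs_of_nonneg (by linarith [Int.floor_le (Real.log (w i (b x)))])]
        have := Int.lt_floor_add_one (Real.log (w i (b x)))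
        simp only [he]
        linarith
      have hcube : ∀ q : Fin N × Coeff A, |(e q.1 q.2 : ℝ) - X q * v m| ≤ (L + 1) * (v m) ^ ρ := by
        rintro ⟨i, x⟩
        have h1 : |(e i x : ℝ) - X (i, x) * v m| ≤
            |(e i x : ℝ) - Real.log (w i (b x))| + |Real.log (w i (b x)) - X (i, x) * v m| := by
          have := abs_add_le ((e i x : ℝ) - Real.log (w i (b x))) (Real.log (w i (b x)) - X (i, x) * v m)
          rwa [sub_add_sub_cancel] at this
        rw [abs_sub_comm] at h1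
        have h2 := hfl i x
        rw [abs_sub_comm] at h2
        have h3 := hb i x
        rw [abs_sub_comm (X (i, x) * v m)] at h1
        dsimp only
        linarith
      have h3 := hRc (fun q => (e q.1 q.2 : ℝ)) (v m) ρ (hv m) hρ hcube
      refine hm₀ m hm e hcube ⟨fun i x => ?_, b, hb0, fun i x => ?_, hcon⟩
      · have h4 : (((e i x).natAbs : ℕ) : ℝ) ≤ (R : ℝ) * v m := by
          rw [Nat.cast_natAbs, Int.cast_abs]
          exact h3 (i, x)
        rw [Int.abs_eq_natAbs]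
        exact_mod_cast Nat.le_floor h4
      · rw [one_mul]
        have h1 := hfl i x
        have h2 : (0 : ℝ) ≤ B := Nat.cast_nonneg B
        linarith
    choose Es hE1 hE2 using key
    rw [hMr] at hE1
    refine ⟨⋃ B, Es B, ?_, fun X hX B L => ?_⟩
    · rw [dimH_iUnion]
      exact iSup_le hE1
    · obtain ⟨B', hB'⟩ := exists_nat_ge B
      obtain ⟨m₀, hm₀⟩ := hE2 B' X (fun h => hX (Set.mem_iUnion.2 ⟨_, h⟩)) L
      exact ⟨m₀, fun m hm b hb0 hb => mono_within w (by linarith) A b (hm₀ m hm b hb0 hb)⟩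

end Pool.Agent.Results.MP_c95b3b_ag.SystemsInCubes
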