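import Pool.Agent.Results.MP_c95b3b_ag.SUnitSystems
import Pool.Agent.X123.ML.Vec

/-!
# ALL systems with `S`-unit coefficients near almost every real coefficient vector

Let `A_1, …, A_r` be finite nonempty sets of exponents in `ℤ^n`, `D = ∑ |A_j|` and `t ∏_j |A_j| (|A_j| - 1) < N`. For almost
every real coefficient vector `z ∈ ℝ^D`, ALL but finitely many of the systems with the coefficients `b = (a_x ∏_i p_i ^ e_i(x))`
with `|z - b| ≤ |e| ^ (-τ)` have no atypical intersection with a torsion coset and no point on an algebraic subgroup of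
dimension less than `r`, if `N D + r - 1 - t < D τ`. The same is true near the points `z` of any metric space outside a set of
dimension at most `(N D + r - 1 - t) / τ`, and with arbitrary absolute values of `ℂ` in place of the primes.
-/

set_option autoImplicit false

open scoped ENNReal

namespace Pool.Agent.Results.MP_c95b3b_ag.SystemsNearTargets

open MeasureTheory Pool.Agent.X123.ML
open Pool.Agent.Results.MP_c95b3b_ag.SUnitSystems

/-- **Theorem.** Let `r ≥ 1`, let `A_1, …, A_r` be finite nonempty subsets of `ℤ^n`, `D = ∑ |A_j|`,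
`t ∏_j |A_j| (|A_j| - 1) < N` and `t ≤ N`. (1) Let `p_i`, `i < N`, be distinct primes, `a_x` nonzero complex numbers, `s` a map
from the integral matrices `e` to a metric space and `τ > 0`. There is a set `E` of Hausdorff dimension at most
`(N D + r - 1 - t) / τ` such that for each `z` outside `E` and all but finitely many `e` with `dist(z, s(e)) ≤ |e| ^ (-τ)`,
`|e| = max |e_i(x)|`, the system `V_b`, `b = (a_x ∏_i p_i ^ e_i(x))`, has no atypical intersection with a torsion coset and no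
point on an algebraic subgroup of dimension less than `r`. (2) Let the `a_x` be real and `N D + r - 1 - t < D τ`. For almost all
`z ∈ ℝ^D` the same holds for all but finitely many `e` with `|z_x - a_x ∏_i p_i ^ e_i(x)| ≤ |e| ^ (-τ)` for all `x`. (3) Let
`v_i`, `i < N`, be absolute values of `ℂ`, `u_i ≠ 0` and `B` real numbers. There is a set `E` of Hausdorff dimension at most
`(N D + r - 1 - t) / τ` such that for each `z` outside `E` and all but finitely many `e` with `dist(z, s(e)) ≤ |e| ^ (-τ)`, ALL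
systems `V_b` with `|log v_i(b_x) - u_i e_i(x)| ≤ B` for all `i`, `x` have no atypical intersection with a coset bounded by
`B`. -/
theorem result {n r : ℕ} (hr : 0 < r) (A : Fin r → Finset (Fin n → ℤ)) (hA : ∀ j, (A j).Nonempty)
    (N t : ℕ) (hN : (∏ j, (A j).card * ((A j).card - 1)) * t < N) (htN : t ≤ N) :
    (∀ p : Fin N → ℕ, (∀ i, (p i).Prime) → Function.Injective p →
      (∀ a : Coeff A → ℂ, (∀ x, a x ≠ 0) →
        ∀ (M : Type) [MetricSpace M] (s : (Fin N → Coeff A → ℤ) → M) (τ : ℝ), 0 < τ →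
          ∃ E : Set M, dimH E ≤ ENNReal.ofReal (((N : ℝ) * ∑ j, ((A j).card : ℝ) + r - 1 - t) / τ) ∧
            ∀ z : M, z ∉ E → {e : Fin N → Coeff A → ℤ | dist z (s e) ≤ ‖e‖ ^ (-τ) ∧
              ¬ (Typical A (fun x => a x * ∏ i, (p i : ℂ) ^ e i x) ∧
                U A (fun x => a x * ∏ i, (p i : ℂ) ^ e i x) = ∅)}.Finite) ∧
      ∀ a : Coeff A → ℝ, (∀ x, a x ≠ 0) → ∀ τ : ℝ, 0 < τ →
        (N : ℝ) * ∑ j, ((A j).card : ℝ) + r - 1 - t < (∑ j, ((A j).card : ℝ)) * τ →
        ∀ᵐ z : Coeff A → ℝ, {e : Fin N → Coeff A → ℤ |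
          (∀ x, |z x - a x * ∏ i, (p i : ℝ) ^ e i x| ≤ ‖e‖ ^ (-τ)) ∧
          ¬ (Typical A (fun x => (a x : ℂ) * ∏ i, (p i : ℂ) ^ e i x) ∧
            U A (fun x => (a x : ℂ) * ∏ i, (p i : ℂ) ^ e i x) = ∅)}.Finite) ∧
    ∀ (v : Fin N → AbsoluteValue ℂ ℝ) (u : Fin N → ℝ), (∀ i, u i ≠ 0) → ∀ B : ℝ,
      ∀ (M : Type) [MetricSpace M] (s : (Fin N → Coeff A → ℤ) → M) (τ : ℝ), 0 < τ →
        ∃ E : Set M, dimH E ≤ ENNReal.ofReal (((N : ℝ) * ∑ j, ((A j).card : ℝ) + r - 1 - t) / τ) ∧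
          ∀ z : M, z ∉ E → {e : Fin N → Coeff A → ℤ | dist z (s e) ≤ ‖e‖ ^ (-τ) ∧
            ¬ ∀ b : Coeff A → ℂ, (∀ x, b x ≠ 0) →
              (∀ i x, |Real.log (v i (b x)) - u i * e i x| ≤ B) → TypicalWithin v B A b}.Finite := by
  obtain ⟨h1, h2⟩ := SUnitSystems.result A hA N t hN
  have hD1 : 1 ≤ ∑ j, (A j).card := by
    have h3 : (A ⟨0, hr⟩).card ≤ ∑ j, (A j).card :=
      Finset.single_le_sum (f := fun j => (A j).card) (fun _ _ => Nat.zero_le _) (Finset.mem_univ _)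
    have h4 : 0 < (A ⟨0, hr⟩).card := Finset.card_pos.2 (hA _)
    omega
  have htM : t ≤ N * ∑ j, (A j).card + r - 1 := by
    have h3 : N ≤ N * ∑ j, (A j).card := Nat.le_mul_of_pos_right N hD1
    omega
  have hM : ((N * ∑ j, (A j).card + r - 1 : ℕ) : ℝ) = (N : ℝ) * ∑ j, ((A j).card : ℝ) + r - 1 := by
    rw [Nat.cast_sub (by omega)]
    push_cast
    ring
  have h0 : (0 : ℝ) ≤ (N : ℝ) * ∑ j, ((A j).card : ℝ) + r - 1 - t := by
    rw [← hM]
    have : (t : ℝ) ≤ ((N * ∑ j, (A j).card + r - 1 : ℕ) : ℝ) := by exact_mod_cast htM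
    linarith
  refine ⟨fun p hp hinj => ?_, fun v u hu B M _ s τ hτ => ?_⟩
  · have hcount : ∀ a : Coeff A → ℂ, (∀ x, a x ≠ 0) → ∀ ε : ℝ, 0 < ε → ∃ C : ℝ, ∀ R : ℝ, 1 ≤ R →
        {e : Fin N → Coeff A → ℤ | e ∈ {e : Fin N → Coeff A → ℤ |
          ¬ (Typical A (fun x => a x * ∏ i, (p i : ℂ) ^ e i x) ∧
            U A (fun x => a x * ∏ i, (p i : ℂ) ^ e i x) = ∅)} ∧ ‖e‖ ≤ R}.Finite ∧
        ({e : Fin N → Coeff A → ℤ | e ∈ {e : Fin N → Coeff A → ℤ |
          ¬ (Typical A (fun x => a x * ∏ i, (p i : ℂ) ^ e i x) ∧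
            U A (fun x => a x * ∏ i, (p i : ℂ) ^ e i x) = ∅)} ∧ ‖e‖ ≤ R}.ncard : ℝ) ≤
          C * R ^ (((N : ℝ) * ∑ j, ((A j).card : ℝ) + r - 1 - t) + ε) := by
      intro a ha
      obtain ⟨c, hc⟩ := h1 p hp hinj a ha
      have h5 := mat_count {e : Fin N → Coeff A → ℤ |
        ¬ (Typical A (fun x => a x * ∏ i, (p i : ℂ) ^ e i x) ∧
          U A (fun x => a x * ∏ i, (p i : ℂ) ^ e i x) = ∅)} htM (c := c) hc
      rwa [hM] at h5
    refine ⟨fun a ha M _ s τ hτ => ?_, fun a ha τ hτ hτ2 => ?_⟩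
    · obtain ⟨E, hE, hE2⟩ := near (I := Unit) (fun _ => {e : Fin N → Coeff A → ℤ |
        ¬ (Typical A (fun x => a x * ∏ i, (p i : ℂ) ^ e i x) ∧
          U A (fun x => a x * ∏ i, (p i : ℂ) ^ e i x) = ∅)})
        (fun e => ‖e‖) h0 hτ (fun _ => hcount a ha) s
      exact ⟨E, hE, fun z hz => (hE2 z hz ()).subset fun e he => ⟨he.2, he.1⟩⟩
    · have hrank : (Module.finrank ℝ (Coeff A → ℝ) : ℝ) = ∑ j, ((A j).card : ℝ) := by
        rw [Module.finrank_fintype_fun_eq_card, Fintype.card_sigma]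
        push_cast
        exact Finset.sum_congr rfl fun j _ => by rw [Fintype.card_coe]
      have h3 := near_ae (I := Unit) (volume : Measure (Coeff A → ℝ))
        (fun _ => {e : Fin N → Coeff A → ℤ |
          ¬ (Typical A (fun x => (a x : ℂ) * ∏ i, (p i : ℂ) ^ e i x) ∧
            U A (fun x => (a x : ℂ) * ∏ i, (p i : ℂ) ^ e i x) = ∅)})
        (fun e => ‖e‖) h0 hτ (by rw [hrank, mul_comm τ]; exact hτ2)
        (fun _ => hcount (fun x => (a x : ℂ)) (fun x => by exact_mod_cast ha x))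
        (fun e x => a x * ∏ i, (p i : ℝ) ^ e i x)
      filter_upwards [h3] with z hz
      refine (hz ()).subset fun e he => ⟨he.2, ?_⟩
      rw [dist_pi_le_iff (Real.rpow_nonneg (norm_nonneg _) _)]
      intro x
      rw [Real.dist_eq]
      exact he.1 x
  · obtain ⟨c, hc⟩ := h2 v u hu B
    have hcount := mat_count {e : Fin N → Coeff A → ℤ |
      ¬ ∀ b : Coeff A → ℂ, (∀ x, b x ≠ 0) →
        (∀ i x, |Real.log (v i (b x)) - u i * e i x| ≤ B) → TypicalWithin v B A b} htM (c := c)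
      (fun R hR => by
        obtain ⟨E, hE1, hE2⟩ := hc R hR
        refine le_trans (Nat.mul_le_mul_right _ ?_) hE1
        have h5 : {e : Fin N → Coeff A → ℤ | (∀ i x, |e i x| ≤ (R : ℤ)) ∧
            e ∈ {e : Fin N → Coeff A → ℤ | ¬ ∀ b : Coeff A → ℂ, (∀ x, b x ≠ 0) →
              (∀ i x, |Real.log (v i (b x)) - u i * e i x| ≤ B) → TypicalWithin v B A b}} ⊆
              (E : Set (Fin N → Coeff A → ℤ)) := by
          intro e he
          by_contra hcon
          exact he.2 (hE2 e he.1 hcon)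
        have h6 := Set.ncard_le_ncard h5 E.finite_toSet
        rw [Set.ncard_coe_finset] at h6
        exact h6)
    rw [hM] at hcount
    obtain ⟨E, hE, hE2⟩ := near (I := Unit) (fun _ => {e : Fin N → Coeff A → ℤ |
      ¬ ∀ b : Coeff A → ℂ, (∀ x, b x ≠ 0) →
        (∀ i x, |Real.log (v i (b x)) - u i * e i x| ≤ B) → TypicalWithin v B A b})
      (fun e => ‖e‖) h0 hτ (fun _ => hcount) s
    exact ⟨E, hE, fun z hz => (hE2 z hz ()).subset fun e he => ⟨he.2, he.1⟩⟩

end Pool.Agent.Results.MP_c95b3b_ag.SystemsNearTargets
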